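import Pool.Agent.helper23.TH.Spec

/-!
MP_26dbae_co, module GE: generic points in ultrapowers.
-/

set_option autoImplicit false

open scoped BigOperators Topology
open Filter

namespace Pool.Agent.helper23.TH

theorem GE_aeval {ι : Type} (a : ℕ → ι → Om) (P : MvPolynomial ι (ZMod 3)) :
    MvPolynomial.aeval (fun i => cl (fun j => a j i)) P =
      cl (fun j => MvPolynomial.aeval (a j) P) := by
  induction P using MvPolynomial.induction_on with
  | C c =>
    simp only [MvPolynomial.aeval_C]
    rfl
  | add p q hp hq =>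
    simp only [map_add, hp, hq]
    rfl
  | mul_X p i hp =>
    simp only [map_mul, hp, MvPolynomial.aeval_X]
    rfl

theorem GE_cl_eq {x y : ℕ → Om} (h : cl x = cl y) :
    ∀ᶠ j in ((hyperfilter ℕ : Ultrafilter ℕ) : Filter ℕ), x j = y j :=
  Filter.Germ.coe_eq.1 h

theorem GE_ge (n : ℕ) : ∀ᶠ j in ((hyperfilter ℕ : Ultrafilter ℕ) : Filter ℕ), n ≤ j :=
  (Filter.Tendsto.eventually (Nat.hyperfilter_le_atTop) (Filter.eventually_ge_atTop n))

theorem GE_base {ι : Type} (a : ℕ → ι → Om) (ha : Gen a) :
    AlgebraicIndependent (ZMod 3) (fun i => cl (fun j => a j i)) := by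
  rw [algebraicIndependent_iff]
  intro P hP
  by_contra hne
  rw [GE_aeval] at hP
  have h1 : ∀ᶠ j in ((hyperfilter ℕ : Ultrafilter ℕ) : Filter ℕ),
      MvPolynomial.aeval (a j) P = 0 := GE_cl_eq (y := fun _ => 0) hP
  obtain ⟨j, hj1, hj2⟩ := (h1.and (GE_ge P.totalDegree)).exists
  exact ha j P hne hj2 hj1

theorem GE_countable {α : Type} [Finite α] (v : α → Kst) :
    {x : Kst | IsAlgebraic (Algebra.adjoin (ZMod 3) (Set.range v)) x}.Countable := by
  have : Countable (MvPolynomial α (ZMod 3)) := by
    rw [← Cardinal.mk_le_aleph0_iff]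
    refine MvPolynomial.cardinalMk_le_max.trans ?_
    simp
  have : Countable (Algebra.adjoin (ZMod 3) (Set.range v)) := by
    have h : ((Algebra.adjoin (ZMod 3) (Set.range v) : Subalgebra (ZMod 3) Kst) : Set Kst).Countable := by
      rw [Algebra.adjoin_range_eq_range_aeval]
      exact Set.countable_range (MvPolynomial.aeval v : MvPolynomial α (ZMod 3) →ₐ[ZMod 3] Kst)
    exact h.to_subtype
  exact Algebraic.countable _ _

theorem GE_diag {κ : Type} [Fintype κ] (S : ℕ → Set (κ → Om))
    (hS : ∀ j : ℕ, (j : ℕ∞) < (S j).encard) (Q : Set Kst) (hQ : Q.Countable) (hQ0 : (0 : Kst) ∈ Q) :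
    ∃ y : ℕ → κ → Om, (∀ j, y j ∈ S j) ∧ ∃ c : κ, cl (fun j => y j c) ∉ Q := by
  classical
  by_contra hcon
  push Not at hcon
  have : Countable Q := hQ.to_subtype
  have : Nonempty (κ → Q) := ⟨fun _ => ⟨0, hQ0⟩⟩
  obtain ⟨e, he⟩ := exists_surjective_nat (κ → Q)
  have hrep : ∀ q : Kst, ∃ f : ℕ → Om, cl f = q := by
    intro q
    induction q using Filter.Germ.inductionOn with
    | h f => exact ⟨f, rfl⟩
  choose rep hrep using hrep
  have hy : ∀ j, ∃ y ∈ S j, ∀ i < j, y ≠ fun c => rep (e i c) j := by
    intro j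
    by_contra hno
    push Not at hno
    have hsub : S j ⊆ (((Finset.range j).image (fun i => fun c => rep (e i c) j) :
        Finset (κ → Om)) : Set (κ → Om)) := by
      intro y hy
      obtain ⟨i, hi, h⟩ := hno y hy
      rw [Finset.mem_coe, Finset.mem_image]
      exact ⟨i, Finset.mem_range.2 hi, h.symm⟩
    have h1 := Set.encard_le_encard hsub
    rw [Set.encard_coe_eq_coe_finsetCard] at h1
    have h2 : ((Finset.range j).image (fun i => fun c => rep (e i c) j)).card ≤ j :=
      Finset.card_image_le.trans (by rw [Finset.card_range])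
    have h3 : (S j).encard ≤ (j : ℕ∞) := h1.trans (by exact_mod_cast h2)
    exact absurd (hS j) (not_lt.2 h3)
  choose y hy1 hy2 using hy
  have h4 := hcon y hy1
  obtain ⟨i, hi⟩ := he (fun c => ⟨cl (fun j => y j c), h4 c⟩)
  have h5 : ∀ c : κ, ∀ᶠ j in ((hyperfilter ℕ : Ultrafilter ℕ) : Filter ℕ),
      y j c = rep (e i c) j := by
    intro c
    apply GE_cl_eq (x := fun j => y j c) (y := rep (e i c))
    rw [hrep, hi]
  have h6 := Filter.eventually_all.2 h5
  obtain ⟨j, hj1, hj2⟩ := (h6.and (GE_ge (i + 1))).exists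
  exact hy2 j i (by omega) (funext hj1)

theorem GE : GE_stmt := by
  intro ι κ _ _ a S ha hS s
  induction s with
  | zero =>
    refine ⟨fun t => t.elim0, fun t => t.elim0, fun t => t.elim0, ?_⟩
    refine (algebraicIndependent_equiv' (Equiv.sumEmpty ι (Fin 0)) ?_).2 (GE_base a ha)
    funext x
    rcases x with x | x
    · rfl
    · exact x.elim0
  | succ s ih =>
    obtain ⟨z, hz, c, hind⟩ := ih
    set v : ι ⊕ Fin s → Kst :=
      (Sum.elim (fun i => cl (fun j => a j i)) (fun t => cl (fun j => z t j (c t)))) with hv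
    obtain ⟨y, hy, c', hc'⟩ := GE_diag S hS _ (GE_countable v) isAlgebraic_zero
    have htr : Transcendental (Algebra.adjoin (ZMod 3) (Set.range v)) (cl (fun j => y j c')) := hc'
    have hopt := (hind.option_iff_transcendental (cl (fun j => y j c'))).2 htr
    refine ⟨Fin.snoc (α := fun _ => ℕ → κ → Om) z y, ?_, Fin.snoc (α := fun _ => κ) c c', ?_⟩
    · intro t j
      refine Fin.lastCases ?_ (fun t => ?_) t
      · rw [Fin.snoc_last]; exact hy j
      · rw [Fin.snoc_castSucc]; exact hz t j
    · let E : Option (ι ⊕ Fin s) ≃ ι ⊕ Fin (s + 1) :=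
        { toFun := fun o => o.elim (Sum.inr (Fin.last s)) (Sum.elim Sum.inl (fun t => Sum.inr t.castSucc))
          invFun := Sum.elim (fun i => some (Sum.inl i))
            (fun t => Fin.lastCases (motive := fun _ => Option (ι ⊕ Fin s)) none
              (fun t => some (Sum.inr t)) t)
          left_inv := by
            intro o
            rcases o with _ | o
            · simp
            · rcases o with o | o <;> simp
          right_inv := by
            intro x
            rcases x with x | x
            · simp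
            · refine Fin.lastCases ?_ (fun t => ?_) x
              · simp
              · simp }
      refine (algebraicIndependent_equiv' E ?_).1 hopt
      funext o
      rcases o with _ | o
      · simp [E]
      · rcases o with o | o
        · simp [E, hv]
        · simp [E, hv]

end Pool.Agent.helper23.TH
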